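import Mathlib
import Pool.Agent.H37.FracDilDefs
import Pool.Agent.H37.FracDilProof

set_option autoImplicit false

/-!
A finite set `A` of integers with `|A + A|^2 < |A| * |A + 2·A|`; its indicator function violates
the proposed inequality `‖α‖ * ‖α + 2·α‖ ≤ ‖α + α‖ ^ 2` for fractional dilates.
-/

namespace Pool.Agent.Results.MP_288d1b_co.SetCounterexample

open Pool.Agent.H37.FracDil

/-- There is a finite set `A` of integers with `|A + A|^2 < |A| * |A + 2·A|`; its indicator
function `α` takes values in `[0, 1]`, has finite sum, and satisfies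
`‖α‖ * ‖α + 2·α‖ > ‖α + α‖ ^ 2`. -/
theorem result : ∃ A : Finset ℤ,
    (dil 1 A).card ^ 2 < A.card * (dil 2 A).card ∧
    (∀ i, ind A i ≤ 1) ∧ mass (ind A) < ⊤ ∧
    sumNorm 1 (ind A) ^ 2 < mass (ind A) * sumNorm 2 (ind A) := by
  obtain ⟨A, hA⟩ := set_inequality
  refine ⟨A, hA, ?_, ?_, ?_⟩
  · intro i; unfold ind; split_ifs <;> simp
  · rw [mass_ind]; exact ENNReal.natCast_lt_top _
  · rw [sumNorm_ind, sumNorm_ind, mass_ind]
    exact_mod_cast hA

end Pool.Agent.Results.MP_288d1b_co.SetCounterexample
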